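import Mathlib

/-! Double zeta values: summability and the inequality `4 ζ(p + 2, r) < ζ(p, r + 2)` (helper553). -/

set_option autoImplicit false

namespace Pool.Agent.U553.DW

open Finset

/-- the sum of `n ^ (-q)` for `1 ≤ n < m` -/
noncomputable def hs (q m : ℕ) : ℝ := ∑ n ∈ Ico 1 m, 1 / (n : ℝ) ^ q

/-- the double zeta value `ζ(p, q)` -/
noncomputable def dz (p q : ℕ) : ℝ := ∑' m : ℕ, hs q (m + 1) / ((m + 1 : ℕ) : ℝ) ^ p

lemma hs_nonneg (q m : ℕ) : 0 ≤ hs q m := sum_nonneg fun n _ => by positivity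

lemma hs_le (q m : ℕ) : hs q m ≤ m := by
  unfold hs
  have h1 : ∀ n ∈ Ico 1 m, 1 / (n : ℝ) ^ q ≤ 1 := fun n hn => by
    have h2 : (1 : ℝ) ≤ n := by exact_mod_cast (mem_Ico.1 hn).1
    rw [div_le_one (by positivity)]
    exact one_le_pow₀ h2
  refine (sum_le_sum h1).trans ?_
  rw [sum_const, Nat.card_Ico, nsmul_eq_mul, mul_one]
  exact_mod_cast Nat.sub_le m 1

lemma summable_sq : Summable fun m : ℕ => 1 / ((m + 1 : ℕ) : ℝ) ^ 2 := by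
  have h := (summable_nat_add_iff 1).2 (Real.summable_one_div_nat_pow.2 (by norm_num : 1 < 2))
  exact h

lemma dz_term_le {p : ℕ} (hp : 3 ≤ p) (q m : ℕ) :
    hs q (m + 1) / ((m + 1 : ℕ) : ℝ) ^ p ≤ 1 / ((m + 1 : ℕ) : ℝ) ^ 2 := by
  have h1 : (1 : ℝ) ≤ ((m + 1 : ℕ) : ℝ) := by exact_mod_cast Nat.succ_pos m
  have h2 := hs_le q (m + 1)
  rw [div_le_div_iff₀ (by positivity) (by positivity), one_mul]
  calc hs q (m + 1) * ((m + 1 : ℕ) : ℝ) ^ 2 ≤ ((m + 1 : ℕ) : ℝ) * ((m + 1 : ℕ) : ℝ) ^ 2 := by gcongr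
    _ = ((m + 1 : ℕ) : ℝ) ^ 3 := by ring
    _ ≤ ((m + 1 : ℕ) : ℝ) ^ p := pow_le_pow_right₀ h1 hp

lemma dz_summable {p : ℕ} (hp : 3 ≤ p) (q : ℕ) :
    Summable fun m : ℕ => hs q (m + 1) / ((m + 1 : ℕ) : ℝ) ^ p :=
  Summable.of_nonneg_of_le (fun m => div_nonneg (hs_nonneg _ _) (by positivity)) (dz_term_le hp q) summable_sq

/-- the inequality for one `m` -/
lemma hs_ineq {r m : ℕ} (hr : 1 ≤ r) (hm : 3 ≤ m) : 4 * hs r m < (m : ℝ) ^ 2 * hs (r + 2) m := by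
  have hm3 : (3 : ℝ) ≤ m := by exact_mod_cast hm
  have h0 : (m : ℝ) ^ 2 * hs (r + 2) m - 4 * hs r m =
      ∑ n ∈ Ico 1 m, ((m : ℝ) ^ 2 - 4 * (n : ℝ) ^ 2) / (n : ℝ) ^ (r + 2) := by
    unfold hs
    rw [mul_sum, mul_sum, ← sum_sub_distrib]
    refine sum_congr rfl fun n hn => ?_
    have h2 : (n : ℝ) ≠ 0 := by
      have := (mem_Ico.1 hn).1
      positivity
    rw [pow_add]
    field_simp
  have h1 : ∀ n ∈ Ico 2 m, -(4 / (m : ℝ)) ≤ ((m : ℝ) ^ 2 - 4 * (n : ℝ) ^ 2) / (n : ℝ) ^ (r + 2) := by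
    intro n hn
    have hn2 : (2 : ℝ) ≤ n := by exact_mod_cast (mem_Ico.1 hn).1
    rcases le_or_gt 0 ((m : ℝ) ^ 2 - 4 * (n : ℝ) ^ 2) with h2 | h2
    · have h3 : 0 ≤ ((m : ℝ) ^ 2 - 4 * (n : ℝ) ^ 2) / (n : ℝ) ^ (r + 2) := by positivity
      have h4 : 0 ≤ 4 / (m : ℝ) := by positivity
      linarith
    · have h3 : ((m : ℝ) ^ 2 - 4 * (n : ℝ) ^ 2) / (n : ℝ) ^ 3 ≤
          ((m : ℝ) ^ 2 - 4 * (n : ℝ) ^ 2) / (n : ℝ) ^ (r + 2) := by
        rw [div_le_div_iff₀ (by positivity) (by positivity)]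
        have h4 : (n : ℝ) ^ 3 ≤ (n : ℝ) ^ (r + 2) := pow_le_pow_right₀ (by linarith) (by omega)
        nlinarith
      refine le_trans ?_ h3
      rw [le_div_iff₀ (by positivity), neg_mul, div_mul_eq_mul_div, neg_le, ← sub_nonneg]
      have h5 : 0 ≤ (m : ℝ) ^ 3 - 4 * m * (n : ℝ) ^ 2 + 4 * (n : ℝ) ^ 3 := by
        nlinarith [mul_nonneg (by positivity : (0 : ℝ) ≤ m + 2 * n) (sq_nonneg ((m : ℝ) - 7 / 6 * n)),
          mul_nonneg (by positivity : (0:ℝ) ≤ m) (sq_nonneg ((n : ℝ))), pow_pos (by linarith : (0:ℝ) < n) 3,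
          mul_nonneg (by positivity : (0 : ℝ) ≤ n) (sq_nonneg ((m : ℝ) - 7 / 6 * n))]
      have h6 : 4 * (n : ℝ) ^ 3 / m - -((m : ℝ) ^ 2 - 4 * (n : ℝ) ^ 2) =
          ((m : ℝ) ^ 3 - 4 * m * (n : ℝ) ^ 2 + 4 * (n : ℝ) ^ 3) / m := by
        field_simp
        ring
      rw [h6]
      positivity
  have h2 : ∑ n ∈ Ico 1 m, ((m : ℝ) ^ 2 - 4 * (n : ℝ) ^ 2) / (n : ℝ) ^ (r + 2) =
      ((m : ℝ) ^ 2 - 4) + ∑ n ∈ Ico 2 m, ((m : ℝ) ^ 2 - 4 * (n : ℝ) ^ 2) / (n : ℝ) ^ (r + 2) := by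
    rw [← sum_erase_add _ _ (mem_Ico.2 ⟨le_refl 1, by omega⟩ : 1 ∈ Ico 1 m), add_comm]
    congr 1
    · simp
    · refine sum_congr ?_ fun _ _ => rfl
      ext n
      simp only [mem_erase, mem_Ico]
      omega
  have h3 : -(4 : ℝ) ≤ ∑ n ∈ Ico 2 m, ((m : ℝ) ^ 2 - 4 * (n : ℝ) ^ 2) / (n : ℝ) ^ (r + 2) := by
    refine le_trans ?_ (sum_le_sum h1)
    rw [sum_const, Nat.card_Ico, nsmul_eq_mul]
    have h4 : ((m - 2 : ℕ) : ℝ) ≤ m := by exact_mod_cast Nat.sub_le m 2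
    have h5 : ((m - 2 : ℕ) : ℝ) * (4 / (m : ℝ)) ≤ 4 := by
      rw [mul_div_assoc', div_le_iff₀ (by positivity)]
      linarith
    linarith
  nlinarith

lemma hs_ineq_le {r m : ℕ} (hr : 1 ≤ r) : 4 * hs r (m + 1) ≤ ((m + 1 : ℕ) : ℝ) ^ 2 * hs (r + 2) (m + 1) := by
  rcases Nat.lt_or_ge m 2 with h | h
  · interval_cases m
    · simp [hs]
    · norm_num [hs]
  · exact (hs_ineq hr (by omega)).le

/-- **the inequality** -/
theorem dz_ineq {p r : ℕ} (hp : 3 ≤ p) (hr : 1 ≤ r) : 4 * dz (p + 2) r < dz p (r + 2) := by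
  unfold dz
  rw [← tsum_mul_left]
  refine Summable.tsum_lt_tsum (i := 2) (fun m => ?_) ?_ ((dz_summable (by omega) r).mul_left 4)
    (dz_summable hp (r + 2))
  · have h1 := hs_ineq_le (m := m) hr
    rw [mul_div_assoc', div_le_div_iff₀ (by positivity) (by positivity)]
    calc 4 * hs r (m + 1) * ((m + 1 : ℕ) : ℝ) ^ p ≤
        ((m + 1 : ℕ) : ℝ) ^ 2 * hs (r + 2) (m + 1) * ((m + 1 : ℕ) : ℝ) ^ p := by gcongr
      _ = hs (r + 2) (m + 1) * ((m + 1 : ℕ) : ℝ) ^ (p + 2) := by ring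
  · have h1 := hs_ineq (m := 3) hr le_rfl
    show 4 * (hs r 3 / ((2 + 1 : ℕ) : ℝ) ^ (p + 2)) < hs (r + 2) 3 / ((2 + 1 : ℕ) : ℝ) ^ p
    rw [mul_div_assoc', div_lt_div_iff₀ (by positivity) (by positivity)]
    have h2 : (0 : ℝ) < ((2 + 1 : ℕ) : ℝ) ^ p := by positivity
    calc 4 * hs r 3 * ((2 + 1 : ℕ) : ℝ) ^ p < ((3 : ℕ) : ℝ) ^ 2 * hs (r + 2) 3 * ((2 + 1 : ℕ) : ℝ) ^ p :=
        mul_lt_mul_of_pos_right h1 h2
      _ = hs (r + 2) 3 * ((2 + 1 : ℕ) : ℝ) ^ (p + 2) := by push_cast; ring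

lemma dz_pos {p : ℕ} (hp : 3 ≤ p) (q : ℕ) : 0 < dz p q := by
  unfold dz
  refine (dz_summable hp q).tsum_pos (fun m => div_nonneg (hs_nonneg _ _) (by positivity)) 1 ?_
  have : hs q (1 + 1) = 1 := by norm_num [hs]
  rw [this]
  positivity

/-- the odd numbers in `[P, R]` -/
def W (P R : ℕ) : Finset ℕ := (Icc P R).filter fun p => p % 2 = 1

lemma W_step {p k : ℕ} (hp : p % 2 = 1) (hk : p + 2 ≤ k - 1) :
    W (p + 1) (k - 1) = insert (p + 2) (W (p + 3) (k - 1)) := by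
  ext n
  simp only [W, mem_insert, mem_filter, mem_Icc]
  omega

/-- each value is larger than three times the sum of the following ones -/
lemma three_sum (k : ℕ) : ∀ j p : ℕ, p % 2 = 1 → 3 ≤ p → p ≤ k - 1 → k ≤ p + j →
    3 * ∑ i ∈ W (p + 1) (k - 1), dz i (k - i) < dz p (k - p) := by
  intro j
  induction j using Nat.strong_induction_on with
  | _ j ih =>
    intro p hp hp3 hpk hj
    by_cases h : p + 2 ≤ k - 1
    · rw [W_step hp h, sum_insert (by simp [W])]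
      have h1 := ih (j - 2) (by omega) (p + 2) (by omega) (by omega) h (by omega)
      have h2 := dz_ineq (p := p) (r := k - (p + 2)) hp3 (by omega)
      have h3 : k - (p + 2) + 2 = k - p := by omega
      rw [h3] at h2
      have h4 : p + 2 + 1 = p + 3 := rfl
      rw [h4] at h1
      linarith
    · have : W (p + 1) (k - 1) = ∅ := by
        ext n
        simp only [W, mem_filter, mem_Icc, notMem_empty, iff_false]
        omega
      rw [this, sum_empty, mul_zero]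
      exact dz_pos hp3 _

end Pool.Agent.U553.DW
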