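import Pool.Agent.U553.DW.A

/-! Relations between the odd double zeta values of one weight have a coefficient of absolute value at least four
(helper553). -/

set_option autoImplicit false

namespace Pool.Agent.U553.DW

open Finset

lemma sum_sq_tail (N : ℕ) (hN : 1 ≤ N) (K : ℕ) :
    ∑ m ∈ range K, 1 / ((m + N + 1 : ℕ) : ℝ) ^ 2 ≤ 1 / (N : ℝ) - 1 / ((N + K : ℕ) : ℝ) := by
  have hN0 : (0 : ℝ) < N := by exact_mod_cast hN
  induction K with
  | zero => simp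
  | succ K ih =>
    rw [sum_range_succ]
    have h1 : 1 / ((K + N + 1 : ℕ) : ℝ) ^ 2 ≤ 1 / ((N + K : ℕ) : ℝ) - 1 / ((N + (K + 1) : ℕ) : ℝ) := by
      have h2 : (0 : ℝ) < ((N + K : ℕ) : ℝ) := by positivity
      have h3 : ((K + N + 1 : ℕ) : ℝ) = ((N + K : ℕ) : ℝ) + 1 := by push_cast; ring
      have h4 : ((N + (K + 1) : ℕ) : ℝ) = ((N + K : ℕ) : ℝ) + 1 := by push_cast; ring
      rw [h3, h4]
      set x : ℝ := ((N + K : ℕ) : ℝ)
      rw [div_sub_div _ _ h2.ne' (by positivity), div_le_div_iff₀ (by positivity) (by positivity)]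
      nlinarith
    linarith

lemma tail_sq (N : ℕ) (hN : 1 ≤ N) :
    (Summable fun m : ℕ => 1 / ((m + N + 1 : ℕ) : ℝ) ^ 2) ∧ ∑' m : ℕ, 1 / ((m + N + 1 : ℕ) : ℝ) ^ 2 ≤ 1 / (N : ℝ) := by
  have h0 : ∀ m : ℕ, (0 : ℝ) ≤ 1 / ((m + N + 1 : ℕ) : ℝ) ^ 2 := fun m => by positivity
  have h1 : ∀ K, ∑ m ∈ range K, 1 / ((m + N + 1 : ℕ) : ℝ) ^ 2 ≤ 1 / (N : ℝ) := fun K => by
    refine (sum_sq_tail N hN K).trans ?_
    have : (0 : ℝ) ≤ 1 / ((N + K : ℕ) : ℝ) := by positivity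
    linarith
  exact ⟨summable_of_sum_range_le h0 h1, Real.tsum_le_of_sum_range_le h0 h1⟩

lemma hs_anti {q q' : ℕ} (h : q ≤ q') (m : ℕ) : hs q' m ≤ hs q m := by
  unfold hs
  refine sum_le_sum fun n hn => ?_
  have h2 : (1 : ℝ) ≤ n := by exact_mod_cast (mem_Ico.1 hn).1
  exact one_div_le_one_div_of_le (by positivity) (pow_le_pow_right₀ h2 h)

lemma dz_anti {p q q' : ℕ} (hp : 3 ≤ p) (h : q ≤ q') : dz p q' ≤ dz p q := by
  unfold dz
  refine Summable.tsum_le_tsum (fun m => ?_) (dz_summable hp q') (dz_summable hp q)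
  exact div_le_div_of_nonneg_right (hs_anti h _) (by positivity)

lemma hs_succ (q m : ℕ) (hm : 1 ≤ m) : hs q (m + 1) = hs q m + 1 / (m : ℝ) ^ q := by
  unfold hs
  rw [sum_Ico_succ_top hm]

lemma hs_three (m : ℕ) (hm : 1 ≤ m) : hs 3 (m + 1) ≤ 3 / 2 - 1 / (2 * (m : ℝ)) := by
  induction m, hm using Nat.le_induction with
  | base => norm_num [hs]
  | succ m hm ih =>
    rw [hs_succ 3 (m + 1) (by omega)]
    have h0 : (0 : ℝ) < m := by exact_mod_cast hm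
    have h1 : 1 / ((m + 1 : ℕ) : ℝ) ^ 3 ≤ 1 / (2 * (m : ℝ)) - 1 / (2 * ((m + 1 : ℕ) : ℝ)) := by
      push_cast
      rw [div_sub_div _ _ (by positivity) (by positivity), div_le_div_iff₀ (by positivity) (by positivity)]
      nlinarith [pow_pos h0 2, pow_pos h0 3, pow_pos h0 4]
    linarith

lemma hs_one (m : ℕ) (hm : 1 ≤ m) : hs 1 (m + 1) ≤ ((m + 1 : ℕ) : ℝ) / 2 := by
  induction m, hm using Nat.le_induction with
  | base => norm_num [hs]
  | succ m hm ih =>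
    rw [hs_succ 1 (m + 1) (by omega)]
    have h0 : (1 : ℝ) ≤ m := by exact_mod_cast hm
    have h1 : 1 / ((m + 1 : ℕ) : ℝ) ^ 1 ≤ 1 / 2 := by
      push_cast
      rw [pow_one]
      exact one_div_le_one_div_of_le (by norm_num) (by linarith)
    push_cast at ih h1 ⊢
    linarith

lemma dz33 : dz 3 3 < 1 / 4 := by
  unfold dz
  rw [← (dz_summable (le_refl 3) 3).sum_add_tsum_nat_add 6]
  have h1 : ∑ i ∈ range 6, hs 3 (i + 1) / ((i + 1 : ℕ) : ℝ) ^ 3 ≤ 0.1998 := by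
    norm_num [sum_range_succ, hs, sum_Ico_succ_top]
  have h2 : ∑' m : ℕ, hs 3 (m + 6 + 1) / ((m + 6 + 1 : ℕ) : ℝ) ^ 3 ≤ 3 / 14 * (1 / 6) := by
    obtain ⟨h3, h4⟩ := tail_sq 6 (by norm_num)
    have h5 : ∀ m : ℕ, hs 3 (m + 6 + 1) / ((m + 6 + 1 : ℕ) : ℝ) ^ 3 ≤ 3 / 14 * (1 / ((m + 6 + 1 : ℕ) : ℝ) ^ 2) := by
      intro m
      have h6 := hs_three (m + 6) (by omega)
      have h7 : (0 : ℝ) ≤ 1 / (2 * ((m + 6 : ℕ) : ℝ)) := by positivity
      have h8 : (7 : ℝ) ≤ ((m + 6 + 1 : ℕ) : ℝ) := by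
        have : 7 ≤ m + 6 + 1 := by omega
        exact_mod_cast this
      rw [mul_one_div, div_le_div_iff₀ (by positivity) (by positivity)]
      have h9 : hs 3 (m + 6 + 1) ≤ 3 / 2 := by linarith
      calc hs 3 (m + 6 + 1) * ((m + 6 + 1 : ℕ) : ℝ) ^ 2 ≤ 3 / 2 * ((m + 6 + 1 : ℕ) : ℝ) ^ 2 := by gcongr
        _ = 3 / 14 * (7 * ((m + 6 + 1 : ℕ) : ℝ) ^ 2) := by ring
        _ ≤ 3 / 14 * (((m + 6 + 1 : ℕ) : ℝ) * ((m + 6 + 1 : ℕ) : ℝ) ^ 2) := by gcongr
        _ = 3 / 14 * ((m + 6 + 1 : ℕ) : ℝ) ^ 3 := by ring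
    calc _ ≤ ∑' m : ℕ, 3 / 14 * (1 / ((m + 6 + 1 : ℕ) : ℝ) ^ 2) :=
          Summable.tsum_le_tsum h5 ((summable_nat_add_iff 6).2 (dz_summable (le_refl 3) 3)) (h3.mul_left _)
      _ = 3 / 14 * ∑' m : ℕ, (1 / ((m + 6 + 1 : ℕ) : ℝ) ^ 2) := tsum_mul_left
      _ ≤ 3 / 14 * (1 / (6 : ℕ)) := by gcongr
      _ = _ := by norm_num
  linarith

lemma dz31 : dz 3 1 < 1 / 3 := by
  unfold dz
  rw [← (dz_summable (le_refl 3) 1).sum_add_tsum_nat_add 5]
  have h1 : ∑ i ∈ range 5, hs 1 (i + 1) / ((i + 1 : ℕ) : ℝ) ^ 3 ≤ 0.226 := by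
    norm_num [sum_range_succ, hs, sum_Ico_succ_top]
  have h2 : ∑' m : ℕ, hs 1 (m + 5 + 1) / ((m + 5 + 1 : ℕ) : ℝ) ^ 3 ≤ 1 / 2 * (1 / 5) := by
    obtain ⟨h3, h4⟩ := tail_sq 5 (by norm_num)
    have h5 : ∀ m : ℕ, hs 1 (m + 5 + 1) / ((m + 5 + 1 : ℕ) : ℝ) ^ 3 ≤ 1 / 2 * (1 / ((m + 5 + 1 : ℕ) : ℝ) ^ 2) := by
      intro m
      have h6 := hs_one (m + 5) (by omega)
      rw [mul_one_div, div_le_div_iff₀ (by positivity) (by positivity)]
      calc hs 1 (m + 5 + 1) * ((m + 5 + 1 : ℕ) : ℝ) ^ 2 ≤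
            (((m + 5 + 1 : ℕ) : ℝ) / 2) * ((m + 5 + 1 : ℕ) : ℝ) ^ 2 := by gcongr
        _ = 1 / 2 * ((m + 5 + 1 : ℕ) : ℝ) ^ 3 := by ring
    calc _ ≤ ∑' m : ℕ, 1 / 2 * (1 / ((m + 5 + 1 : ℕ) : ℝ) ^ 2) :=
          Summable.tsum_le_tsum h5 ((summable_nat_add_iff 5).2 (dz_summable (le_refl 3) 1)) (h3.mul_left _)
      _ = 1 / 2 * ∑' m : ℕ, (1 / ((m + 5 + 1 : ℕ) : ℝ) ^ 2) := tsum_mul_left
      _ ≤ 1 / 2 * (1 / (5 : ℕ)) := by gcongr
      _ = _ := by norm_num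
  linarith

/-- the zeta value `ζ(k)` -/
noncomputable def zk (k : ℕ) : ℝ := ∑' m : ℕ, 1 / ((m + 1 : ℕ) : ℝ) ^ k

lemma zk_summable {k : ℕ} (hk : 2 ≤ k) : Summable fun m : ℕ => 1 / ((m + 1 : ℕ) : ℝ) ^ k :=
  (summable_nat_add_iff 1).2 (Real.summable_one_div_nat_pow.2 (by omega : 1 < k))

lemma one_le_zk {k : ℕ} (hk : 2 ≤ k) : 1 ≤ zk k := by
  unfold zk
  have h := (zk_summable hk).sum_le_tsum (range 1) (fun m _ => by positivity)
  simpa using h

/-- three times the sum of all values is less than one -/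
lemma total {k : ℕ} (hk : 4 ≤ k) : 3 * ∑ p ∈ W 3 (k - 1), dz p (k - p) < 1 := by
  have h0 : W 3 (k - 1) = insert 3 (W 4 (k - 1)) := by
    ext n
    simp only [W, mem_insert, mem_filter, mem_Icc]
    omega
  rw [h0, sum_insert (by simp [W])]
  rcases Nat.lt_or_ge k 6 with h | h
  · have h1 : W 4 (k - 1) = ∅ := by
      ext n
      simp only [W, mem_filter, mem_Icc, notMem_empty, iff_false]
      omega
    rw [h1, sum_empty, add_zero]
    have h2 := dz_anti (le_refl 3) (show 1 ≤ k - 3 by omega)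
    linarith [dz31]
  · have h1 := three_sum k k 3 (by norm_num) le_rfl (by omega) (by omega)
    have h2 := dz_anti (le_refl 3) (show 3 ≤ k - 3 by omega)
    have h3 : (3 : ℕ) + 1 = 4 := rfl
    rw [h3] at h1
    linarith [dz33]

/-- **heights of relations**: an integer relation between `ζ(k)` and the `ζ(p, k - p)` with `p` odd has a coefficient `≥ 4`
at one of the double zeta values -/
theorem height {k : ℕ} (hk : 4 ≤ k) (c : ℕ → ℤ) (hc : ∀ p ∈ W 3 (k - 1), |c p| ≤ 3) (d : ℤ)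
    (h : d ≠ 0 ∨ ∃ p ∈ W 3 (k - 1), c p ≠ 0) :
    ∑ p ∈ W 3 (k - 1), (c p : ℝ) * dz p (k - p) + d * zk k ≠ 0 := by
  have hcr : ∀ p ∈ W 3 (k - 1), |(c p : ℝ)| ≤ 3 := fun p hp => by exact_mod_cast hc p hp
  have hpos : ∀ p ∈ W 3 (k - 1), 0 < dz p (k - p) := fun p hp => by
    refine dz_pos ?_ _
    simp only [W, mem_filter, mem_Icc] at hp
    omega
  by_cases hd : d = 0
  · subst hd
    rw [Int.cast_zero, zero_mul, add_zero]
    obtain ⟨p1, hp1, hcp1⟩ := h.resolve_left (by simp)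
    set S : Finset ℕ := (W 3 (k - 1)).filter fun p => c p ≠ 0 with hS
    have hSne : S.Nonempty := ⟨p1, mem_filter.2 ⟨hp1, hcp1⟩⟩
    set p := S.min' hSne with hp
    have hpS : p ∈ S := S.min'_mem hSne
    have hpW : p ∈ W 3 (k - 1) := (mem_filter.1 hpS).1
    have hcp : c p ≠ 0 := (mem_filter.1 hpS).2
    have hpc := hpW
    simp only [W, mem_filter, mem_Icc] at hpc
    have h1 := three_sum k k p hpc.2 hpc.1.1 hpc.1.2 (by omega)
    have hsub : W (p + 1) (k - 1) ⊆ W 3 (k - 1) := by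
      intro n hn
      simp only [W, mem_filter, mem_Icc] at hn ⊢
      omega
    have h2 : ∑ i ∈ W 3 (k - 1), (c i : ℝ) * dz i (k - i) =
        (c p : ℝ) * dz p (k - p) + ∑ i ∈ W (p + 1) (k - 1), (c i : ℝ) * dz i (k - i) := by
      rw [← sum_insert (s := W (p + 1) (k - 1)) (a := p) (f := fun i => (c i : ℝ) * dz i (k - i)) (by simp [W])]
      symm
      refine sum_subset ?_ ?_
      · intro n hn
        rcases mem_insert.1 hn with rfl | hn
        · exact hpW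
        · exact hsub hn
      · intro n hn hn'
        have h3 : c n = 0 := by
          by_contra hne
          have h4 := S.min'_le n (mem_filter.2 ⟨hn, hne⟩)
          refine hn' ?_
          rw [mem_insert]
          rcases h4.eq_or_lt with h5 | h5
          · exact Or.inl h5.symm
          · right
            simp only [W, mem_filter, mem_Icc] at hn ⊢
            omega
        rw [h3]
        simp
    rw [h2]
    intro h3
    have h4 : |(c p : ℝ) * dz p (k - p)| = |∑ i ∈ W (p + 1) (k - 1), (c i : ℝ) * dz i (k - i)| := by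
      rw [eq_neg_of_add_eq_zero_left h3, abs_neg]
    have h5 : dz p (k - p) ≤ |(c p : ℝ) * dz p (k - p)| := by
      rw [abs_mul, abs_of_pos (hpos p hpW)]
      have h6 : (1 : ℝ) ≤ |(c p : ℝ)| := by
        have := Int.one_le_abs hcp
        exact_mod_cast this
      nlinarith [hpos p hpW]
    have h6 : |∑ i ∈ W (p + 1) (k - 1), (c i : ℝ) * dz i (k - i)| ≤ 3 * ∑ i ∈ W (p + 1) (k - 1), dz i (k - i) := by
      refine (abs_sum_le_sum_abs _ _).trans ?_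
      rw [mul_sum]
      refine sum_le_sum fun i hi => ?_
      rw [abs_mul, abs_of_pos (hpos i (hsub hi))]
      exact mul_le_mul_of_nonneg_right (hcr i (hsub hi)) (hpos i (hsub hi)).le
    linarith
  · intro h3
    have h4 : |(d : ℝ) * zk k| = |∑ p ∈ W 3 (k - 1), (c p : ℝ) * dz p (k - p)| := by
      rw [eq_neg_of_add_eq_zero_right h3, abs_neg]
    have h5 : (1 : ℝ) ≤ |(d : ℝ) * zk k| := by
      have h7 : 1 ≤ zk k := one_le_zk (by omega)
      have h8 : |zk k| = zk k := abs_of_pos (by linarith)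
      rw [abs_mul, h8]
      have h6 : (1 : ℝ) ≤ |(d : ℝ)| := by
        have := Int.one_le_abs hd
        exact_mod_cast this
      nlinarith
    have h6 : |∑ p ∈ W 3 (k - 1), (c p : ℝ) * dz p (k - p)| ≤ 3 * ∑ p ∈ W 3 (k - 1), dz p (k - p) := by
      refine (abs_sum_le_sum_abs _ _).trans ?_
      rw [mul_sum]
      refine sum_le_sum fun i hi => ?_
      rw [abs_mul, abs_of_pos (hpos i hi)]
      exact mul_le_mul_of_nonneg_right (hcr i hi) (hpos i hi).le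
    linarith [total hk]

end Pool.Agent.U553.DW
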