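import Pool.Agent.U553.DW.B

/-! The values `F(1 / m)` of odd integer polynomials with small coefficients (helper553). -/

set_option autoImplicit false

namespace Pool.Agent.U553.DW

open Finset Polynomial

lemma lin_prim (a : ℕ) : (C (a : ℤ) * X - 1 : ℤ[X]).IsPrimitive := by
  intro r hr
  have h1 : r ∣ (C (a : ℤ) * X - 1 : ℤ[X]).coeff 0 := (C_dvd_iff_dvd_coeff r _).1 hr 0
  rw [coeff_sub, mul_coeff_zero, coeff_X_zero, mul_zero, coeff_one_zero, zero_sub] at h1
  exact isUnit_of_dvd_unit h1 (by norm_num)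

lemma lin_dvd {a : ℕ} (ha : 1 ≤ a) {G : ℤ[X]} (h : aeval (1 / (a : ℚ)) G = 0) :
    (C (a : ℤ) * X - 1 : ℤ[X]) ∣ G := by
  by_cases hG : G = 0
  · rw [hG]; exact dvd_zero _
  have ha0 : (a : ℚ) ≠ 0 := by positivity
  have h1 : aeval (1 / (a : ℚ)) G.primPart = 0 := by
    have h2 := G.eq_C_content_mul_primPart
    rw [h2, map_mul, aeval_C] at h
    rcases mul_eq_zero.1 h with h3 | h3
    · exfalso
      rw [eq_intCast, Int.cast_eq_zero, content_eq_zero_iff] at h3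
      exact hG h3
    · exact h3
  have h2 : (C (a : ℤ) * X - 1 : ℤ[X]) ∣ G.primPart := by
    rw [IsPrimitive.Int.dvd_iff_map_cast_dvd_map_cast _ _ (lin_prim a)]
    have h3 : (C (a : ℤ) * X - 1 : ℤ[X]).map (Int.castRingHom ℚ) = C (a : ℚ) * (X - C (1 / (a : ℚ))) := by
      rw [Polynomial.map_sub, Polynomial.map_mul, map_C, map_X, Polynomial.map_one, mul_sub, ← C_mul, mul_one_div_cancel ha0]
      simp
    rw [h3, (isUnit_C.2 (IsUnit.mk0 _ ha0)).mul_left_dvd, dvd_iff_isRoot, IsRoot, eval_map]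
    rw [aeval_def] at h1
    exact h1
  exact h2.trans (Dvd.intro_left _ G.eq_C_content_mul_primPart.symm)

lemma lin_lead {a : ℕ} (ha : 1 ≤ a) : (C (a : ℤ) * X - 1 : ℤ[X]).leadingCoeff = a := by
  have ha0 : (a : ℤ) ≠ 0 := by positivity
  have h1 : (C (a : ℤ) * X - 1 : ℤ[X]) = C (a : ℤ) * X + C (-1) := by simp [sub_eq_add_neg]
  rw [h1, leadingCoeff_linear ha0]

lemma fact_dvd : ∀ (M : ℕ) (G : ℤ[X]), G ≠ 0 →
    (∀ m, 2 ≤ m → m ≤ M → aeval (1 / ((m ^ 2 : ℕ) : ℚ)) G = 0) → ((M.factorial ^ 2 : ℕ) : ℤ) ∣ G.leadingCoeff := by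
  intro M
  induction M with
  | zero => intro G _ _; simp
  | succ M ih =>
    intro G hG h
    rcases Nat.eq_zero_or_pos M with rfl | hM
    · simp
    obtain ⟨G', hG'⟩ := lin_dvd (a := (M + 1) ^ 2) (Nat.one_le_pow _ _ (Nat.succ_pos M)) (h (M + 1) (by omega) le_rfl)
    have hG'0 : G' ≠ 0 := by
      rintro rfl
      exact hG (by rw [hG', mul_zero])
    have h1 := ih G' hG'0 fun m hm hmM => by
      have h2 := h m hm (by omega)
      rw [hG', map_mul] at h2
      rcases mul_eq_zero.1 h2 with h3 | h3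
      · exfalso
        have hm0 : (m : ℚ) ≠ 0 := by positivity
        rw [map_sub, map_mul, aeval_C, aeval_X, map_one, eq_intCast, sub_eq_zero] at h3
        push_cast at h3
        rw [mul_one_div, div_eq_one_iff_eq (by positivity)] at h3
        have h4 : (M + 1) ^ 2 = m ^ 2 := by exact_mod_cast h3
        have h5 := Nat.pow_left_injective (n := 2) (by norm_num) h4
        omega
      · exact h3
    rw [hG', leadingCoeff_mul, lin_lead (Nat.one_le_pow _ _ (Nat.succ_pos M)), Nat.factorial_succ, mul_pow]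
    push_cast at h1 ⊢
    exact mul_dvd_mul_left _ h1

/-- a nonzero odd polynomial with coefficients less than `(M!)²` does not vanish at all `1 / m`, `2 ≤ m ≤ M` -/
lemma exists_ne {M H P0 P1 : ℕ} (hH : H < M.factorial ^ 2) (c : ℕ → ℤ) (hc : ∀ p ∈ W P0 P1, |c p| ≤ H)
    (h : ∃ p ∈ W P0 P1, c p ≠ 0) :
    ∃ m, 2 ≤ m ∧ m ≤ M ∧ ∑ p ∈ W P0 P1, (c p : ℚ) * (1 / (m : ℚ)) ^ p ≠ 0 := by
  by_contra hcon
  push Not at hcon
  set G : ℤ[X] := ∑ p ∈ W P0 P1, C (c p) * X ^ ((p - 1) / 2) with hGdef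
  have hcoeff : ∀ j, G.coeff j = if 2 * j + 1 ∈ W P0 P1 then c (2 * j + 1) else 0 := by
    intro j
    rw [hGdef, finsetSum_coeff]
    split_ifs with hj
    · rw [sum_eq_single (2 * j + 1)]
      · rw [coeff_C_mul, coeff_X_pow, if_pos (by omega), mul_one]
      · intro p hp hne
        simp only [W, mem_filter] at hp
        rw [coeff_C_mul, coeff_X_pow, if_neg (by omega), mul_zero]
      · intro hn
        exact absurd hj hn
    · refine sum_eq_zero fun p hp => ?_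
      have hp' := hp
      simp only [W, mem_filter] at hp
      rw [coeff_C_mul, coeff_X_pow, if_neg, mul_zero]
      intro hjp
      have : 2 * j + 1 = p := by omega
      rw [this] at hj
      exact hj hp'
  have hG0 : G ≠ 0 := by
    obtain ⟨p, hp, hcp⟩ := h
    intro hG
    have h1 := hcoeff ((p - 1) / 2)
    have hp' := hp
    simp only [W, mem_filter] at hp
    have h2 : 2 * ((p - 1) / 2) + 1 = p := by omega
    rw [h2, if_pos hp', hG, coeff_zero] at h1
    exact hcp h1.symm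
  have hroot : ∀ m, 2 ≤ m → m ≤ M → aeval (1 / ((m ^ 2 : ℕ) : ℚ)) G = 0 := by
    intro m hm hmM
    have h1 := hcon m hm hmM
    have hm0 : (m : ℚ) ≠ 0 := by positivity
    have h2 : ∑ p ∈ W P0 P1, (c p : ℚ) * (1 / (m : ℚ)) ^ p = (1 / (m : ℚ)) * aeval (1 / ((m ^ 2 : ℕ) : ℚ)) G := by
      rw [hGdef, map_sum, mul_sum]
      refine sum_congr rfl fun p hp => ?_
      simp only [W, mem_filter] at hp
      rw [map_mul, aeval_C, map_pow, aeval_X, eq_intCast]
      have h3 : (1 / (m : ℚ)) ^ p = 1 / (m : ℚ) * (1 / ((m ^ 2 : ℕ) : ℚ)) ^ ((p - 1) / 2) := by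
        have h4 : (1 / ((m ^ 2 : ℕ) : ℚ)) = (1 / (m : ℚ)) ^ 2 := by
          push_cast
          rw [one_div_pow]
        rw [h4, ← pow_mul, ← pow_succ']
        congr 1
        omega
      rw [h3]
      ring
    rw [h2] at h1
    rcases mul_eq_zero.1 h1 with h3 | h3
    · exact absurd h3 (by positivity)
    · exact h3
  have h1 := fact_dvd M G hG0 hroot
  have h2 : |G.leadingCoeff| ≤ H := by
    rw [leadingCoeff, hcoeff]
    split_ifs with hj
    · exact hc _ hj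
    · simp
  have h3 : G.leadingCoeff ≠ 0 := leadingCoeff_ne_zero.2 hG0
  have h4 := Int.le_of_dvd (abs_pos.2 h3) ((dvd_abs _ _).2 h1)
  have h5 : ((M.factorial ^ 2 : ℕ) : ℤ) ≤ (H : ℤ) := h4.trans h2
  have h6 : M.factorial ^ 2 ≤ H := by exact_mod_cast h5
  omega

/-- Liouville's inequality -/
lemma liouville {m P0 P1 : ℕ} (hm : 1 ≤ m) (c : ℕ → ℤ)
    (h : ∑ p ∈ W P0 P1, (c p : ℚ) * (1 / (m : ℚ)) ^ p ≠ 0) :
    1 / (m : ℝ) ^ P1 ≤ |∑ p ∈ W P0 P1, (c p : ℝ) * (1 / (m : ℝ)) ^ p| := by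
  have hm0 : (0 : ℚ) < (m : ℚ) := by positivity
  have h1 : ∑ p ∈ W P0 P1, (c p : ℚ) * (1 / (m : ℚ)) ^ p =
      ((∑ p ∈ W P0 P1, c p * (m : ℤ) ^ (P1 - p) : ℤ) : ℚ) / (m : ℚ) ^ P1 := by
    rw [eq_div_iff (by positivity), sum_mul]
    push_cast
    refine sum_congr rfl fun p hp => ?_
    simp only [W, mem_filter, mem_Icc] at hp
    have h2 : (m : ℚ) ^ P1 = (m : ℚ) ^ p * (m : ℚ) ^ (P1 - p) := by
      rw [← pow_add]
      congr 1
      omega
    rw [h2, one_div_pow]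
    field_simp
  set z : ℤ := ∑ p ∈ W P0 P1, c p * (m : ℤ) ^ (P1 - p) with hz
  have hz0 : z ≠ 0 := by
    intro hz0
    rw [h1, hz0] at h
    simp at h
  have h2 : ∑ p ∈ W P0 P1, (c p : ℝ) * (1 / (m : ℝ)) ^ p = (z : ℝ) / (m : ℝ) ^ P1 := by
    have h3 := congrArg (fun q : ℚ => (q : ℝ)) h1
    push_cast at h3
    exact h3
  have hm0r : (0 : ℝ) < (m : ℝ) := by positivity
  rw [h2, abs_div, abs_of_pos (pow_pos hm0r P1)]
  refine div_le_div_of_nonneg_right ?_ (by positivity)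
  have := Int.one_le_abs hz0
  exact_mod_cast this

end Pool.Agent.U553.DW
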