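import Pool.Agent.U553.DW.C

/-! Windows of odd double zeta values without relations of small height (helper553). -/

set_option autoImplicit false

namespace Pool.Agent.U553.DW

open Finset

/-- the tail `∑_{m > N} m ^ (-p)` -/
noncomputable def R (p N : ℕ) : ℝ := ∑' m : ℕ, 1 / ((m + N + 1 : ℕ) : ℝ) ^ p

lemma R_term {p N : ℕ} (hp : 2 ≤ p) (m : ℕ) :
    1 / ((m + N + 1 : ℕ) : ℝ) ^ p ≤ (1 / ((N + 1 : ℕ) : ℝ)) ^ (p - 2) * (1 / ((m + N + 1 : ℕ) : ℝ) ^ 2) := by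
  have h1 : (0 : ℝ) < ((N + 1 : ℕ) : ℝ) := by positivity
  have h2 : ((N + 1 : ℕ) : ℝ) ≤ ((m + N + 1 : ℕ) : ℝ) := by exact_mod_cast (by omega : N + 1 ≤ m + N + 1)
  have h3 : ((m + N + 1 : ℕ) : ℝ) ^ p = ((m + N + 1 : ℕ) : ℝ) ^ (p - 2) * ((m + N + 1 : ℕ) : ℝ) ^ 2 := by
    rw [← pow_add]
    congr 1
    omega
  rw [h3, one_div_pow, one_div_mul_one_div]
  exact one_div_le_one_div_of_le (by positivity) (by gcongr)

lemma R_summable {p N : ℕ} (hp : 2 ≤ p) (hN : 1 ≤ N) : Summable fun m : ℕ => 1 / ((m + N + 1 : ℕ) : ℝ) ^ p :=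
  Summable.of_nonneg_of_le (fun m => by positivity) (R_term hp) ((tail_sq N hN).1.mul_left _)

lemma R_nonneg (p N : ℕ) : 0 ≤ R p N := tsum_nonneg fun m => by positivity

lemma R_le {p N : ℕ} (hp : 2 ≤ p) (hN : 1 ≤ N) : R p N ≤ ((N : ℝ) + 3) * (1 / ((N + 1 : ℕ) : ℝ)) ^ p := by
  have h0 := tail_sq N hN
  have hN0 : (1 : ℝ) ≤ N := by exact_mod_cast hN
  have h1 : R p N ≤ (1 / ((N + 1 : ℕ) : ℝ)) ^ (p - 2) * (1 / (N : ℝ)) := by
    unfold R
    calc _ ≤ ∑' m : ℕ, (1 / ((N + 1 : ℕ) : ℝ)) ^ (p - 2) * (1 / ((m + N + 1 : ℕ) : ℝ) ^ 2) :=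
          Summable.tsum_le_tsum (R_term hp) (R_summable hp hN) (h0.1.mul_left _)
      _ = (1 / ((N + 1 : ℕ) : ℝ)) ^ (p - 2) * ∑' m : ℕ, (1 / ((m + N + 1 : ℕ) : ℝ) ^ 2) := tsum_mul_left
      _ ≤ _ := by gcongr; exact h0.2
  refine h1.trans ?_
  have h2 : (1 / ((N + 1 : ℕ) : ℝ)) ^ p = (1 / ((N + 1 : ℕ) : ℝ)) ^ (p - 2) * (1 / ((N + 1 : ℕ) : ℝ)) ^ 2 := by
    rw [← pow_add]
    congr 1
    omega
  rw [h2]
  have h3 : 1 / (N : ℝ) ≤ ((N : ℝ) + 3) * (1 / ((N + 1 : ℕ) : ℝ)) ^ 2 := by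
    push_cast
    rw [one_div_pow, mul_one_div, div_le_div_iff₀ (by positivity) (by positivity)]
    nlinarith
  calc (1 / ((N + 1 : ℕ) : ℝ)) ^ (p - 2) * (1 / (N : ℝ)) ≤
      (1 / ((N + 1 : ℕ) : ℝ)) ^ (p - 2) * (((N : ℝ) + 3) * (1 / ((N + 1 : ℕ) : ℝ)) ^ 2) := by gcongr
    _ = _ := by ring

/-- the sum of `n ^ (-q)` for `2 ≤ n < m` -/
noncomputable def ht (q m : ℕ) : ℝ := ∑ n ∈ Ico 2 m, 1 / (n : ℝ) ^ q

lemma ht_nonneg (q m : ℕ) : 0 ≤ ht q m := sum_nonneg fun n _ => by positivity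

lemma hs_eq (q : ℕ) {m : ℕ} (hm : 2 ≤ m) : hs q m = 1 + ht q m := by
  unfold hs ht
  rw [← sum_erase_add _ _ (mem_Ico.2 ⟨le_refl 1, by omega⟩ : 1 ∈ Ico 1 m), add_comm]
  congr 1
  · simp
  · refine sum_congr ?_ fun _ _ => rfl
    ext n
    simp only [mem_erase, mem_Ico]
    omega

lemma ht_le (q m : ℕ) : ht q m ≤ m * (1 / 2) ^ q := by
  unfold ht
  have h1 : ∀ n ∈ Ico 2 m, 1 / (n : ℝ) ^ q ≤ (1 / 2) ^ q := fun n hn => by
    have h2 : (2 : ℝ) ≤ n := by exact_mod_cast (mem_Ico.1 hn).1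
    rw [one_div_pow]
    exact one_div_le_one_div_of_le (by positivity) (by gcongr)
  refine (sum_le_sum h1).trans ?_
  rw [sum_const, Nat.card_Ico, nsmul_eq_mul]
  gcongr
  exact Nat.sub_le m 2

/-- the part of `ζ(p, q)` with `n ≥ 2` -/
noncomputable def Bz (p q : ℕ) : ℝ := ∑' m : ℕ, ht q (m + 2 + 1) / ((m + 2 + 1 : ℕ) : ℝ) ^ p

lemma Bz_term {p : ℕ} (hp : 3 ≤ p) (q m : ℕ) : ht q (m + 2 + 1) / ((m + 2 + 1 : ℕ) : ℝ) ^ p ≤
    (27 * (1 / 3) ^ p * (1 / 2) ^ q) * (1 / ((m + 2 + 1 : ℕ) : ℝ) ^ 2) := by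
  have h0 : (3 : ℝ) ≤ ((m + 2 + 1 : ℕ) : ℝ) := by exact_mod_cast (by omega : 3 ≤ m + 2 + 1)
  set x : ℝ := ((m + 2 + 1 : ℕ) : ℝ) with hx
  have h1 : ht q (m + 2 + 1) ≤ x * (1 / 2) ^ q := ht_le q (m + 2 + 1)
  have h2 : x ^ p = x ^ (p - 3) * x ^ 3 := by
    rw [← pow_add]
    congr 1
    omega
  have h3 : ((1 : ℝ) / 3) ^ p = (1 / 3) ^ (p - 3) * (1 / 27) := by
    have : ((1 : ℝ) / 3) ^ p = (1 / 3) ^ (p - 3) * (1 / 3) ^ 3 := by
      rw [← pow_add]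
      congr 1
      omega
    rw [this]
    norm_num
  have h4 : 1 / x ^ (p - 3) ≤ (1 / 3) ^ (p - 3) := by
    rw [one_div_pow]
    exact one_div_le_one_div_of_le (by positivity) (by gcongr)
  calc ht q (m + 2 + 1) / x ^ p ≤ x * (1 / 2) ^ q / x ^ p := by gcongr
    _ = (1 / x ^ (p - 3)) * (1 / 2) ^ q * (1 / x ^ 2) := by
        rw [h2]
        field_simp
    _ ≤ (1 / 3) ^ (p - 3) * (1 / 2) ^ q * (1 / x ^ 2) := by gcongr
    _ = _ := by rw [h3]; ring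

lemma Bz_summable {p : ℕ} (hp : 3 ≤ p) (q : ℕ) : Summable fun m : ℕ => ht q (m + 2 + 1) / ((m + 2 + 1 : ℕ) : ℝ) ^ p :=
  Summable.of_nonneg_of_le (fun m => div_nonneg (ht_nonneg _ _) (by positivity)) (Bz_term hp q)
    ((tail_sq 2 (by norm_num)).1.mul_left _)

lemma Bz_nonneg (p q : ℕ) : 0 ≤ Bz p q := tsum_nonneg fun m => div_nonneg (ht_nonneg _ _) (by positivity)

lemma Bz_le {p : ℕ} (hp : 3 ≤ p) (q : ℕ) : Bz p q ≤ 14 * (1 / 3) ^ p * (1 / 2) ^ q := by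
  have h0 := tail_sq 2 (by norm_num)
  unfold Bz
  calc _ ≤ ∑' m : ℕ, (27 * (1 / 3) ^ p * (1 / 2) ^ q) * (1 / ((m + 2 + 1 : ℕ) : ℝ) ^ 2) :=
        Summable.tsum_le_tsum (Bz_term hp q) (Bz_summable hp q) (h0.1.mul_left _)
    _ = (27 * (1 / 3) ^ p * (1 / 2) ^ q) * ∑' m : ℕ, (1 / ((m + 2 + 1 : ℕ) : ℝ) ^ 2) := tsum_mul_left
    _ ≤ (27 * (1 / 3) ^ p * (1 / 2) ^ q) * (1 / (2 : ℕ)) := by gcongr; exact h0.2
    _ ≤ _ := by
        have : (0 : ℝ) ≤ (1 / 3) ^ p * (1 / 2) ^ q := by positivity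
        push_cast
        nlinarith

/-- decomposition -/
lemma dz_eq {p : ℕ} (hp : 3 ≤ p) (q : ℕ) : dz p q = R p 1 + Bz p q := by
  have h1 : dz p q = ∑' m : ℕ, hs q (m + 1 + 1) / ((m + 1 + 1 : ℕ) : ℝ) ^ p := by
    unfold dz
    rw [← (dz_summable hp q).sum_add_tsum_nat_add 1]
    have : hs q 1 = 0 := by simp [hs]
    simp [this]
  have h2 : Bz p q = ∑' m : ℕ, ht q (m + 1 + 1) / ((m + 1 + 1 : ℕ) : ℝ) ^ p := by
    have hsum : Summable fun m : ℕ => ht q (m + 1 + 1) / ((m + 1 + 1 : ℕ) : ℝ) ^ p :=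
      (summable_nat_add_iff 1).1 (Bz_summable hp q)
    rw [← hsum.sum_add_tsum_nat_add 1]
    have : ht q 2 = 0 := by simp [ht]
    simp only [range_one, sum_singleton, zero_add, this, zero_div]
    rfl
  have hsum : Summable fun m : ℕ => ht q (m + 1 + 1) / ((m + 1 + 1 : ℕ) : ℝ) ^ p :=
    (summable_nat_add_iff 1).1 (Bz_summable hp q)
  rw [h1, h2, R, ← (R_summable (by omega) (le_refl 1)).tsum_add hsum]
  refine tsum_congr fun m => ?_
  rw [hs_eq q (by omega), add_div]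

lemma R_split {p N : ℕ} (hp : 2 ≤ p) (hN : 1 ≤ N) :
    R p 1 = ∑ i ∈ range (N - 1), 1 / ((i + 1 + 1 : ℕ) : ℝ) ^ p + R p N := by
  unfold R
  rw [← (R_summable hp (le_refl 1)).sum_add_tsum_nat_add (N - 1)]
  congr 1
  refine tsum_congr fun m => ?_
  have : m + (N - 1) + 1 + 1 = m + N + 1 := by omega
  rw [this]

/-- finite geometric sums over windows -/
lemma geo {x : ℝ} (h0 : 0 ≤ x) (h1 : x < 1) (P0 P1 : ℕ) : ∑ p ∈ W P0 P1, x ^ p ≤ x ^ P0 / (1 - x) := by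
  have h2 : ∑ p ∈ W P0 P1, x ^ p ≤ ∑ p ∈ Ico P0 (P1 + 1), x ^ p := by
    refine sum_le_sum_of_subset_of_nonneg ?_ fun p _ _ => by positivity
    intro p hp
    simp only [W, mem_filter, mem_Icc] at hp
    rw [mem_Ico]
    omega
  refine h2.trans ?_
  rw [le_div_iff₀ (by linarith)]
  rcases Nat.lt_or_ge P1 P0 with h | h
  · rw [Ico_eq_empty (by omega), sum_empty, zero_mul]
    positivity
  · have h3 : ∀ b, P0 ≤ b → (∑ p ∈ Ico P0 b, x ^ p) * (1 - x) = x ^ P0 - x ^ b := by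
      intro b hb
      induction b, hb using Nat.le_induction with
      | base => simp
      | succ b hb ih =>
        rw [sum_Ico_succ_top hb, add_mul, ih]
        ring
    rw [h3 _ (by omega)]
    have : 0 ≤ x ^ (P1 + 1) := by positivity
    linarith

/-- the contribution of the terms with `n ≥ 2` -/
lemma B_part {M H P0 P1 k : ℕ} (h3 : 3 ≤ P0) (h1k : P1 < k) (hM : 1 ≤ M)
    (hB : 168 * H * M ^ P1 * 2 ^ P0 ≤ 2 ^ k * 3 ^ P0) (c : ℕ → ℤ) (hc : ∀ p ∈ W P0 P1, |c p| ≤ H) :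
    |∑ p ∈ W P0 P1, (c p : ℝ) * Bz p (k - p)| ≤ 1 / 4 * (1 / (M : ℝ) ^ P1) := by
  have hcr : ∀ p ∈ W P0 P1, |(c p : ℝ)| ≤ H := fun p hp => by exact_mod_cast hc p hp
  have h1 : |∑ p ∈ W P0 P1, (c p : ℝ) * Bz p (k - p)| ≤
      ∑ p ∈ W P0 P1, (H : ℝ) * (14 * (1 / 2) ^ k) * (2 / 3) ^ p := by
    refine (abs_sum_le_sum_abs _ _).trans (sum_le_sum fun p hp => ?_)
    have hp' := hp
    simp only [W, mem_filter, mem_Icc] at hp'
    rw [abs_mul, abs_of_nonneg (Bz_nonneg _ _)]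
    have h2 := Bz_le (p := p) (by omega) (k - p)
    have h4 : 14 * ((1 : ℝ) / 3) ^ p * (1 / 2) ^ (k - p) = 14 * (1 / 2) ^ k * (2 / 3) ^ p := by
      have h5 : ((1 : ℝ) / 2) ^ k = (1 / 2) ^ (k - p) * (1 / 2) ^ p := by
        rw [← pow_add]
        congr 1
        omega
      have h6 : ((1 : ℝ) / 3) ^ p = (1 / 2) ^ p * (2 / 3) ^ p := by
        rw [← mul_pow]
        norm_num
      rw [h5, h6]
      ring
    rw [h4] at h2
    calc |(c p : ℝ)| * Bz p (k - p) ≤ H * (14 * (1 / 2) ^ k * (2 / 3) ^ p) :=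
          mul_le_mul (hcr p hp) h2 (Bz_nonneg _ _) (by positivity)
      _ = _ := by ring
  rw [← mul_sum] at h1
  have h2 := geo (x := 2 / 3) (by norm_num) (by norm_num) P0 P1
  have h4 : ((2 : ℝ) / 3) ^ P0 / (1 - 2 / 3) = 3 * (2 / 3) ^ P0 := by ring
  rw [h4] at h2
  have hMr : (0 : ℝ) < (M : ℝ) ^ P1 := by positivity
  have h5 : (168 : ℝ) * H * (M : ℝ) ^ P1 * 2 ^ P0 ≤ 2 ^ k * 3 ^ P0 := by exact_mod_cast hB
  calc _ ≤ (H : ℝ) * (14 * (1 / 2) ^ k) * ∑ p ∈ W P0 P1, (2 / 3 : ℝ) ^ p := h1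
    _ ≤ (H : ℝ) * (14 * (1 / 2) ^ k) * (3 * (2 / 3) ^ P0) := by gcongr
    _ ≤ 1 / 4 * (1 / (M : ℝ) ^ P1) := by
        rw [mul_one_div, le_div_iff₀ hMr, one_div_pow, div_pow]
        have h6 : (H : ℝ) * (14 * (1 / 2 ^ k)) * (3 * (2 ^ P0 / 3 ^ P0)) * (M : ℝ) ^ P1 =
            (168 * H * (M : ℝ) ^ P1 * 2 ^ P0) / (4 * (2 ^ k * 3 ^ P0)) := by
          field_simp
          ring
        rw [h6, div_le_iff₀ (by positivity)]
        linarith

/-- the contribution of the tails -/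
lemma R_part {N H P0 P1 : ℕ} (h3 : 3 ≤ P0) (hN : 2 ≤ N) (hA : 6 * (N + 3) * H * N ^ P1 ≤ (N + 1) ^ P0)
    (c : ℕ → ℤ) (hc : ∀ p ∈ W P0 P1, |c p| ≤ H) :
    |∑ p ∈ W P0 P1, (c p : ℝ) * R p N| ≤ 1 / 4 * (1 / (N : ℝ) ^ P1) := by
  have hcr : ∀ p ∈ W P0 P1, |(c p : ℝ)| ≤ H := fun p hp => by exact_mod_cast hc p hp
  have hN2 : (2 : ℝ) ≤ N := by exact_mod_cast hN
  have hx : (1 / ((N + 1 : ℕ) : ℝ)) ≤ 1 / 3 := by
    push_cast
    exact one_div_le_one_div_of_le (by norm_num) (by linarith)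
  have h1 : |∑ p ∈ W P0 P1, (c p : ℝ) * R p N| ≤
      ∑ p ∈ W P0 P1, (H : ℝ) * ((N : ℝ) + 3) * (1 / ((N + 1 : ℕ) : ℝ)) ^ p := by
    refine (abs_sum_le_sum_abs _ _).trans (sum_le_sum fun p hp => ?_)
    have hp' := hp
    simp only [W, mem_filter, mem_Icc] at hp'
    rw [abs_mul, abs_of_nonneg (R_nonneg _ _)]
    have h2 := R_le (p := p) (N := N) (by omega) (by omega)
    calc |(c p : ℝ)| * R p N ≤ H * (((N : ℝ) + 3) * (1 / ((N + 1 : ℕ) : ℝ)) ^ p) :=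
          mul_le_mul (hcr p hp) h2 (R_nonneg _ _) (by positivity)
      _ = _ := by ring
  rw [← mul_sum] at h1
  have h2 := geo (x := 1 / ((N + 1 : ℕ) : ℝ)) (by positivity) (by linarith) P0 P1
  have h4 : (1 / ((N + 1 : ℕ) : ℝ)) ^ P0 / (1 - 1 / ((N + 1 : ℕ) : ℝ)) ≤ 3 / 2 * (1 / ((N + 1 : ℕ) : ℝ)) ^ P0 := by
    rw [div_le_iff₀ (by linarith)]
    have : (0 : ℝ) ≤ (1 / ((N + 1 : ℕ) : ℝ)) ^ P0 := by positivity
    nlinarith
  have h5 : (6 : ℝ) * (N + 3) * H * (N : ℝ) ^ P1 ≤ ((N + 1 : ℕ) : ℝ) ^ P0 := by exact_mod_cast hA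
  calc _ ≤ (H : ℝ) * ((N : ℝ) + 3) * ∑ p ∈ W P0 P1, (1 / ((N + 1 : ℕ) : ℝ)) ^ p := h1
    _ ≤ (H : ℝ) * ((N : ℝ) + 3) * (3 / 2 * (1 / ((N + 1 : ℕ) : ℝ)) ^ P0) := by
        gcongr
        exact h2.trans h4
    _ ≤ 1 / 4 * (1 / (N : ℝ) ^ P1) := by
        rw [mul_one_div, le_div_iff₀ (by positivity), one_div_pow]
        have h6 : (H : ℝ) * ((N : ℝ) + 3) * (3 / 2 * (1 / ((N + 1 : ℕ) : ℝ) ^ P0)) * (N : ℝ) ^ P1 =
            (6 * (N + 3) * H * (N : ℝ) ^ P1) / (4 * ((N + 1 : ℕ) : ℝ) ^ P0) := by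
          field_simp
          ring
        rw [h6, div_le_iff₀ (by positivity)]
        linarith

/-- **Windows without relations of small height.** -/
theorem window {M H P0 P1 k : ℕ} (hM : 2 ≤ M) (hH : H < M.factorial ^ 2) (h3 : 3 ≤ P0) (h01 : P0 ≤ P1)
    (h1k : P1 < k) (hA : 6 * (M + 3) * H * M ^ P1 ≤ (M + 1) ^ P0)
    (hB : 168 * H * M ^ P1 * 2 ^ P0 ≤ 2 ^ k * 3 ^ P0) (c : ℕ → ℤ) (hc : ∀ p ∈ W P0 P1, |c p| ≤ H) (d : ℤ)
    (h : d ≠ 0 ∨ ∃ p ∈ W P0 P1, c p ≠ 0) :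
    1 / (2 * (M : ℝ) ^ P1) ≤ |∑ p ∈ W P0 P1, (c p : ℝ) * dz p (k - p) + d * zk k| := by
  have hMr : (2 : ℝ) ≤ M := by exact_mod_cast hM
  have hBp := B_part h3 h1k (by omega : 1 ≤ M) hB c hc
  have hcr : ∀ p ∈ W P0 P1, |(c p : ℝ)| ≤ H := fun p hp => by exact_mod_cast hc p hp
  by_cases hd : d = 0
  · subst hd
    rw [Int.cast_zero, zero_mul, add_zero]
    obtain hex := exists_ne hH c hc (h.resolve_left (by simp))
    classical
    set N := Nat.find hex with hNdef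
    obtain ⟨hN2, hNM, hNne⟩ := Nat.find_spec hex
    rw [← hNdef] at hN2 hNM hNne
    have hmin : ∀ m, 2 ≤ m → m < N → ∑ p ∈ W P0 P1, (c p : ℚ) * (1 / (m : ℚ)) ^ p = 0 := by
      intro m hm hmN
      by_contra hne
      exact Nat.find_min hex hmN ⟨hm, by omega, hne⟩
    have hNr : (2 : ℝ) ≤ N := by exact_mod_cast hN2
    have hAN : 6 * (N + 3) * H * N ^ P1 ≤ (N + 1) ^ P0 := by
      have h5 : (M + 1) ^ P0 * N ^ P1 ≤ (N + 1) ^ P0 * M ^ P1 := by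
        have e1 : N ^ P1 = N ^ P0 * N ^ (P1 - P0) := by
          rw [← pow_add]; congr 1; omega
        have e2 : M ^ P1 = M ^ P0 * M ^ (P1 - P0) := by
          rw [← pow_add]; congr 1; omega
        rw [e1, e2, ← mul_assoc, ← mul_assoc, ← mul_pow, ← mul_pow]
        refine Nat.mul_le_mul (Nat.pow_le_pow_left ?_ _) (Nat.pow_le_pow_left hNM _)
        nlinarith
      have h6 : 6 * (N + 3) * H * N ^ P1 * M ^ P1 ≤ (N + 1) ^ P0 * M ^ P1 := by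
        calc 6 * (N + 3) * H * N ^ P1 * M ^ P1 = (6 * (N + 3) * H * M ^ P1) * N ^ P1 := by ring
          _ ≤ (6 * (M + 3) * H * M ^ P1) * N ^ P1 := by gcongr
          _ ≤ (M + 1) ^ P0 * N ^ P1 := by gcongr
          _ ≤ _ := h5
      exact Nat.le_of_mul_le_mul_right h6 (by positivity)
    have hRp := R_part h3 hN2 hAN c hc
    have hL := liouville (P0 := P0) (P1 := P1) (by omega : 1 ≤ N) c hNne
    have hmain : ∑ p ∈ W P0 P1, (c p : ℝ) * dz p (k - p) =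
        ∑ p ∈ W P0 P1, (c p : ℝ) * (1 / (N : ℝ)) ^ p + ∑ p ∈ W P0 P1, (c p : ℝ) * R p N +
          ∑ p ∈ W P0 P1, (c p : ℝ) * Bz p (k - p) := by
      have e1 : ∑ p ∈ W P0 P1, (c p : ℝ) * dz p (k - p) =
          ∑ p ∈ W P0 P1, (c p : ℝ) * (∑ i ∈ range (N - 1), 1 / ((i + 1 + 1 : ℕ) : ℝ) ^ p) +
          ∑ p ∈ W P0 P1, (c p : ℝ) * R p N + ∑ p ∈ W P0 P1, (c p : ℝ) * Bz p (k - p) := by
        rw [← sum_add_distrib, ← sum_add_distrib]
        refine sum_congr rfl fun p hp => ?_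
        simp only [W, mem_filter, mem_Icc] at hp
        rw [dz_eq (by omega), R_split (by omega) (by omega : 1 ≤ N)]
        ring
      rw [e1]
      congr 2
      simp_rw [mul_sum]
      rw [sum_comm]
      have e2 : N - 1 = (N - 2) + 1 := by omega
      rw [e2, sum_range_succ]
      have e3 : ∀ i ∈ range (N - 2), ∑ p ∈ W P0 P1, (c p : ℝ) * (1 / ((i + 1 + 1 : ℕ) : ℝ) ^ p) = 0 := by
        intro i hi
        have h7 := hmin (i + 2) (by omega) (by have := mem_range.1 hi; omega)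
        have h8 := congrArg (fun q : ℚ => (q : ℝ)) h7
        push_cast at h8
        rw [← h8]
        refine sum_congr rfl fun p _ => ?_
        rw [one_div_pow]
        push_cast
        congr 3
        ring
      rw [sum_eq_zero e3, zero_add]
      refine sum_congr rfl fun p _ => ?_
      have e4 : N - 2 + 1 + 1 = N := by omega
      rw [e4, one_div_pow]
    rw [hmain]
    have hM1 : (0 : ℝ) < (M : ℝ) ^ P1 := by positivity
    have hN1 : (0 : ℝ) < (N : ℝ) ^ P1 := by positivity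
    have hNM' : 1 / (M : ℝ) ^ P1 ≤ 1 / (N : ℝ) ^ P1 :=
      one_div_le_one_div_of_le hN1 (by have : (N : ℝ) ≤ M := by exact_mod_cast hNM
                                       gcongr)
    have h7 : 1 / (2 * (M : ℝ) ^ P1) = 1 / 2 * (1 / (M : ℝ) ^ P1) := by
      rw [one_div_mul_one_div]
    rw [h7]
    set A := ∑ p ∈ W P0 P1, (c p : ℝ) * (1 / (N : ℝ)) ^ p
    set B := ∑ p ∈ W P0 P1, (c p : ℝ) * R p N
    set C := ∑ p ∈ W P0 P1, (c p : ℝ) * Bz p (k - p)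
    have h8 : |A| ≤ |A + B + C| + |B| + |C| := by
      have e : A = (A + B + C) - B - C := by ring
      calc |A| = |(A + B + C) - B - C| := by rw [← e]
        _ ≤ |(A + B + C) - B| + |C| := abs_sub _ _
        _ ≤ |A + B + C| + |B| + |C| := by gcongr; exact abs_sub _ _
    linarith
  · have hM0 : (0 : ℝ) < (M : ℝ) ^ P1 := by positivity
    have h30 : 30 * H ≤ 2 ^ P0 := by
      have e1 : (M + 1) ^ P0 ≤ 2 ^ P0 * M ^ P0 := by
        rw [← mul_pow]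
        exact Nat.pow_le_pow_left (by omega) _
      have e2 : M ^ P0 ≤ M ^ P1 := Nat.pow_le_pow_right (by omega) h01
      have e3 : 30 * H * M ^ P0 ≤ 2 ^ P0 * M ^ P0 := by
        calc 30 * H * M ^ P0 ≤ (6 * (M + 3) * H) * M ^ P1 := by
              refine Nat.mul_le_mul ?_ e2
              nlinarith
          _ ≤ (M + 1) ^ P0 := hA
          _ ≤ _ := e1
      exact Nat.le_of_mul_le_mul_right e3 (by positivity)
    have h30r : (30 : ℝ) * H ≤ 2 ^ P0 := by exact_mod_cast h30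
    have hR : |∑ p ∈ W P0 P1, (c p : ℝ) * R p 1| ≤ 8 / 30 := by
      have h1 : |∑ p ∈ W P0 P1, (c p : ℝ) * R p 1| ≤ ∑ p ∈ W P0 P1, (H : ℝ) * 4 * (1 / 2) ^ p := by
        refine (abs_sum_le_sum_abs _ _).trans (sum_le_sum fun p hp => ?_)
        have hp' := hp
        simp only [W, mem_filter, mem_Icc] at hp'
        rw [abs_mul, abs_of_nonneg (R_nonneg _ _)]
        have h2 := R_le (p := p) (N := 1) (by omega) le_rfl
        norm_num at h2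
        calc |(c p : ℝ)| * R p 1 ≤ H * (4 * (1 / 2) ^ p) :=
              mul_le_mul (hcr p hp) (by norm_num; exact h2) (R_nonneg _ _) (by positivity)
          _ = _ := by ring
      rw [← mul_sum] at h1
      have h2 := geo (x := 1 / 2) (by norm_num) (by norm_num) P0 P1
      have h4 : ((1 : ℝ) / 2) ^ P0 / (1 - 1 / 2) = 2 * (1 / 2 ^ P0) := by
        rw [one_div_pow]; ring
      rw [h4] at h2
      calc _ ≤ (H : ℝ) * 4 * ∑ p ∈ W P0 P1, (1 / 2 : ℝ) ^ p := h1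
        _ ≤ (H : ℝ) * 4 * (2 * (1 / 2 ^ P0)) := by gcongr
        _ = 8 / 30 * ((30 * H) / 2 ^ P0) := by ring
        _ ≤ 8 / 30 * 1 := by
            gcongr
            rw [div_le_one (by positivity)]
            exact h30r
        _ = 8 / 30 := by ring
    have hsplit : ∑ p ∈ W P0 P1, (c p : ℝ) * dz p (k - p) =
        ∑ p ∈ W P0 P1, (c p : ℝ) * R p 1 + ∑ p ∈ W P0 P1, (c p : ℝ) * Bz p (k - p) := by
      rw [← sum_add_distrib]
      refine sum_congr rfl fun p hp => ?_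
      simp only [W, mem_filter, mem_Icc] at hp
      rw [dz_eq (by omega)]
      ring
    rw [hsplit]
    have hM8 : (8 : ℝ) ≤ (M : ℝ) ^ P1 := by
      calc (8 : ℝ) = 2 ^ 3 := by norm_num
        _ ≤ (M : ℝ) ^ 3 := by gcongr
        _ ≤ (M : ℝ) ^ P1 := pow_le_pow_right₀ (by linarith) (by omega)
    have h8 : 1 / (M : ℝ) ^ P1 ≤ 1 / 8 := one_div_le_one_div_of_le (by norm_num) hM8
    have h7 : 1 / (2 * (M : ℝ) ^ P1) = 1 / 2 * (1 / (M : ℝ) ^ P1) := by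
      rw [one_div_mul_one_div]
    have hz := one_le_zk (k := k) (by omega)
    have hdz : 1 ≤ |(d : ℝ) * zk k| := by
      have h9 : |zk k| = zk k := abs_of_pos (by linarith)
      rw [abs_mul, h9]
      have h6 : (1 : ℝ) ≤ |(d : ℝ)| := by
        have := Int.one_le_abs hd
        exact_mod_cast this
      nlinarith
    rw [h7]
    set A := (d : ℝ) * zk k
    set B := ∑ p ∈ W P0 P1, (c p : ℝ) * R p 1
    set C := ∑ p ∈ W P0 P1, (c p : ℝ) * Bz p (k - p)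
    have h9 : |A| ≤ |B + C + A| + |B| + |C| := by
      have e : A = (B + C + A) - B - C := by ring
      calc |A| = |(B + C + A) - B - C| := by rw [← e]
        _ ≤ |(B + C + A) - B| + |C| := abs_sub _ _
        _ ≤ |B + C + A| + |B| + |C| := by gcongr; exact abs_sub _ _
    linarith

end Pool.Agent.U553.DW
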