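import Pool.Agent.U553.DW.D

/-! Windows of odd double zeta values without relations of small height: large weights (helper553). -/

set_option autoImplicit false

namespace Pool.Agent.U553.DW

open Finset Filter

lemma exp_large (K δ : ℝ) (hδ : 0 < δ) : ∃ k0 : ℕ, ∀ k : ℕ, k0 ≤ k → K ≤ Real.exp (δ * k) := by
  have h1 : Tendsto (fun k : ℕ => δ * (k : ℝ)) atTop atTop :=
    (tendsto_natCast_atTop_atTop).const_mul_atTop hδ
  have h2 := (Real.tendsto_exp_atTop.comp h1).eventually_ge_atTop K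
  exact eventually_atTop.1 h2

theorem window_asymp {M : ℕ} (hM : 2 ≤ M) {a b : ℝ} (ha : 0 < a)
    (h1 : b * Real.log M < a * Real.log (M + 1)) (h2 : b * Real.log M < Real.log 2 + a * Real.log (3 / 2)) :
    ∃ k0 : ℕ, ∀ k : ℕ, k0 ≤ k → ∀ P0 P1 : ℕ, a * k ≤ P0 → P0 ≤ P1 → (P1 : ℝ) ≤ b * k → P1 < k →
      ∀ c : ℕ → ℤ, (∀ p ∈ W P0 P1, |c p| < (M.factorial : ℤ) ^ 2) → ∀ d : ℤ,
      (d ≠ 0 ∨ ∃ p ∈ W P0 P1, c p ≠ 0) →
      1 / (2 * (M : ℝ) ^ P1) ≤ |∑ p ∈ W P0 P1, (c p : ℝ) * dz p (k - p) + d * zk k| := by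
  have hMr : (2 : ℝ) ≤ M := by exact_mod_cast hM
  have hlogM : 0 < Real.log M := Real.log_pos (by linarith)
  set H : ℕ := M.factorial ^ 2 - 1 with hH
  have hfac : 0 < M.factorial ^ 2 := by positivity
  obtain ⟨k1, hk1⟩ := exp_large (6 * (M + 3) * H) _ (sub_pos.2 h1)
  obtain ⟨k2, hk2⟩ := exp_large (168 * H) _ (sub_pos.2 h2)
  obtain ⟨k3, hk3⟩ := exists_nat_ge (3 / a)
  refine ⟨max k1 (max k2 k3), fun k hk P0 P1 hP0 h01 hP1 h1k c hc d h => ?_⟩
  have hkk1 := hk1 k ((le_max_left _ _).trans hk)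
  have hkk2 := hk2 k (((le_max_left _ _).trans (le_max_right _ _)).trans hk)
  have hkk3 : (k3 : ℝ) ≤ k := by exact_mod_cast ((le_max_right _ _).trans (le_max_right _ _)).trans hk
  have h3 : 3 ≤ P0 := by
    have h4 : (3 : ℝ) ≤ a * k := by
      have h5 : 3 / a ≤ k := hk3.trans hkk3
      rw [div_le_iff₀ ha] at h5
      linarith
    exact_mod_cast h4.trans hP0
  have hpowM : (M : ℝ) ^ P1 ≤ Real.exp (b * k * Real.log M) := by
    rw [← Real.exp_log (show (0 : ℝ) < (M : ℝ) ^ P1 by positivity), Real.log_pow]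
    refine Real.exp_le_exp.2 ?_
    gcongr
  have hpowM1 : Real.exp (a * k * Real.log (M + 1)) ≤ ((M + 1 : ℕ) : ℝ) ^ P0 := by
    rw [← Real.exp_log (show (0 : ℝ) < ((M + 1 : ℕ) : ℝ) ^ P0 by positivity), Real.log_pow]
    refine Real.exp_le_exp.2 ?_
    push_cast
    have : 0 ≤ Real.log ((M : ℝ) + 1) := Real.log_nonneg (by linarith)
    gcongr
  have hpow3 : Real.exp (a * k * Real.log (3 / 2)) ≤ (3 / 2 : ℝ) ^ P0 := by
    rw [← Real.exp_log (show (0 : ℝ) < (3 / 2 : ℝ) ^ P0 by positivity), Real.log_pow]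
    refine Real.exp_le_exp.2 ?_
    have : 0 ≤ Real.log ((3 : ℝ) / 2) := Real.log_nonneg (by norm_num)
    gcongr
  have hA : 6 * (M + 3) * H * M ^ P1 ≤ (M + 1) ^ P0 := by
    have h4 : (6 : ℝ) * (M + 3) * H * (M : ℝ) ^ P1 ≤ ((M + 1 : ℕ) : ℝ) ^ P0 := by
      calc (6 : ℝ) * (M + 3) * H * (M : ℝ) ^ P1 ≤
          Real.exp ((a * Real.log (M + 1) - b * Real.log M) * k) * Real.exp (b * k * Real.log M) := by
            gcongr
        _ = Real.exp (a * k * Real.log (M + 1)) := by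
            rw [← Real.exp_add]
            congr 1
            ring
        _ ≤ _ := hpowM1
    exact_mod_cast h4
  have hB : 168 * H * M ^ P1 * 2 ^ P0 ≤ 2 ^ k * 3 ^ P0 := by
    have h4 : (168 : ℝ) * H * (M : ℝ) ^ P1 ≤ 2 ^ k * (3 / 2) ^ P0 := by
      calc (168 : ℝ) * H * (M : ℝ) ^ P1 ≤
          Real.exp ((Real.log 2 + a * Real.log (3 / 2) - b * Real.log M) * k) * Real.exp (b * k * Real.log M) := by
            gcongr
        _ = Real.exp (Real.log 2 * k) * Real.exp (a * k * Real.log (3 / 2)) := by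
            rw [← Real.exp_add, ← Real.exp_add]
            congr 1
            ring
        _ = 2 ^ k * Real.exp (a * k * Real.log (3 / 2)) := by
            rw [mul_comm (Real.log 2), Real.exp_nat_mul, Real.exp_log (by norm_num)]
        _ ≤ _ := by gcongr
    have h5 : (168 : ℝ) * H * (M : ℝ) ^ P1 * 2 ^ P0 ≤ 2 ^ k * 3 ^ P0 := by
      calc (168 : ℝ) * H * (M : ℝ) ^ P1 * 2 ^ P0 ≤ 2 ^ k * (3 / 2) ^ P0 * 2 ^ P0 := by gcongr
        _ = 2 ^ k * 3 ^ P0 := by
            rw [mul_assoc, ← mul_pow]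
            norm_num
    exact_mod_cast h5
  refine window hM (H := H) (by omega) h3 h01 h1k hA hB c (fun p hp => ?_) d h
  have h4 := hc p hp
  have h5 : ((M.factorial ^ 2 - 1 : ℕ) : ℤ) = (M.factorial : ℤ) ^ 2 - 1 := by
    rw [Nat.cast_sub (by omega)]
    push_cast
    ring
  rw [hH, h5]
  omega

/-- all windows whose ratio is a little smaller than `log (M + 1) / log M` -/
theorem window_unif {M : ℕ} (hM : 2 ≤ M) {ε : ℝ} (hε : 0 < ε) :
    ∃ N : ℕ, ∀ P0 P1 k : ℕ, N ≤ P0 → P0 ≤ P1 → P1 < k →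
      (P1 : ℝ) * (Real.log M + ε) ≤ P0 * Real.log (M + 1) →
      (P1 : ℝ) * (Real.log M + ε) ≤ k * Real.log 2 + P0 * Real.log (3 / 2) →
      ∀ c : ℕ → ℤ, (∀ p ∈ W P0 P1, |c p| < (M.factorial : ℤ) ^ 2) → ∀ d : ℤ,
      (d ≠ 0 ∨ ∃ p ∈ W P0 P1, c p ≠ 0) →
      1 / (2 * (M : ℝ) ^ P1) ≤ |∑ p ∈ W P0 P1, (c p : ℝ) * dz p (k - p) + d * zk k| := by
  have hMr : (2 : ℝ) ≤ M := by exact_mod_cast hM
  have hlogM : 0 < Real.log M := Real.log_pos (by linarith)
  set H : ℕ := M.factorial ^ 2 - 1 with hH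
  have hfac : 0 < M.factorial ^ 2 := by positivity
  obtain ⟨k1, hk1⟩ := exp_large (6 * (M + 3) * H) _ hε
  obtain ⟨k2, hk2⟩ := exp_large (168 * H) _ hε
  refine ⟨max k1 (max k2 3), fun P0 P1 k hP0 h01 h1k h1 h2 c hc d h => ?_⟩
  have hkk1 := hk1 P1 (((le_max_left _ _).trans hP0).trans h01)
  have hkk2 := hk2 P1 ((((le_max_left _ _).trans (le_max_right _ _)).trans hP0).trans h01)
  have h3 : 3 ≤ P0 := ((le_max_right _ _).trans (le_max_right _ _)).trans hP0
  have hpowM : (M : ℝ) ^ P1 = Real.exp (P1 * Real.log M) := by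
    rw [Real.exp_nat_mul, Real.exp_log (by linarith)]
  have hpowM1 : ((M + 1 : ℕ) : ℝ) ^ P0 = Real.exp (P0 * Real.log (M + 1)) := by
    rw [Real.exp_nat_mul, Real.exp_log (by linarith)]
    push_cast
    rfl
  have hpow3 : (3 / 2 : ℝ) ^ P0 = Real.exp (P0 * Real.log (3 / 2)) := by
    rw [Real.exp_nat_mul, Real.exp_log (by norm_num)]
  have hpow2 : (2 : ℝ) ^ k = Real.exp (k * Real.log 2) := by
    rw [Real.exp_nat_mul, Real.exp_log (by norm_num)]
  have hA : 6 * (M + 3) * H * M ^ P1 ≤ (M + 1) ^ P0 := by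
    have h4 : (6 : ℝ) * (M + 3) * H * (M : ℝ) ^ P1 ≤ ((M + 1 : ℕ) : ℝ) ^ P0 := by
      calc (6 : ℝ) * (M + 3) * H * (M : ℝ) ^ P1 ≤ Real.exp (ε * P1) * (M : ℝ) ^ P1 := by gcongr
        _ = Real.exp (P1 * (Real.log M + ε)) := by
            rw [hpowM, ← Real.exp_add]
            congr 1
            ring
        _ ≤ _ := by
            rw [hpowM1]
            exact Real.exp_le_exp.2 h1
    exact_mod_cast h4
  have hB : 168 * H * M ^ P1 * 2 ^ P0 ≤ 2 ^ k * 3 ^ P0 := by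
    have h4 : (168 : ℝ) * H * (M : ℝ) ^ P1 ≤ 2 ^ k * (3 / 2) ^ P0 := by
      calc (168 : ℝ) * H * (M : ℝ) ^ P1 ≤ Real.exp (ε * P1) * (M : ℝ) ^ P1 := by gcongr
        _ = Real.exp (P1 * (Real.log M + ε)) := by
            rw [hpowM, ← Real.exp_add]
            congr 1
            ring
        _ ≤ _ := by
            rw [hpow3, hpow2, ← Real.exp_add]
            exact Real.exp_le_exp.2 h2
    have h5 : (168 : ℝ) * H * (M : ℝ) ^ P1 * 2 ^ P0 ≤ 2 ^ k * 3 ^ P0 := by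
      calc (168 : ℝ) * H * (M : ℝ) ^ P1 * 2 ^ P0 ≤ 2 ^ k * (3 / 2) ^ P0 * 2 ^ P0 := by gcongr
        _ = 2 ^ k * 3 ^ P0 := by
            rw [mul_assoc, ← mul_pow]
            norm_num
    exact_mod_cast h5
  refine window hM (H := H) (by omega) h3 h01 h1k hA hB c (fun p hp => ?_) d h
  have h4 := hc p hp
  have h5 : ((M.factorial ^ 2 - 1 : ℕ) : ℤ) = (M.factorial : ℤ) ^ 2 - 1 := by
    rw [Nat.cast_sub (by omega)]
    push_cast
    ring
  rw [hH, h5]
  omega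

/-- windows of a positive proportion for every height -/
theorem window_every (H : ℕ) : ∃ a b : ℝ, 0 < a ∧ a < b ∧ b < 1 ∧ ∃ k0 : ℕ, ∀ k : ℕ, k0 ≤ k → ∀ P0 P1 : ℕ,
    a * k ≤ P0 → P0 ≤ P1 → (P1 : ℝ) ≤ b * k → ∀ c : ℕ → ℤ, (∀ p ∈ W P0 P1, |c p| ≤ H) → ∀ d : ℤ,
      (d ≠ 0 ∨ ∃ p ∈ W P0 P1, c p ≠ 0) → ∑ p ∈ W P0 P1, (c p : ℝ) * dz p (k - p) + d * zk k ≠ 0 := by
  set M : ℕ := H + 2 with hM
  have hMr : (2 : ℝ) ≤ M := by
    have : 2 ≤ M := by omega
    exact_mod_cast this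
  have hl : 0 < Real.log M := Real.log_pos (by linarith)
  have hl1 : Real.log M < Real.log (M + 1) := Real.log_lt_log (by linarith) (by linarith)
  set ρ : ℝ := Real.log M / Real.log (M + 1) with hρ
  have hρ0 : 0 < ρ := div_pos hl (hl.trans hl1)
  have hρ1 : ρ < 1 := (div_lt_one (hl.trans hl1)).2 hl1
  set b : ℝ := 1 / (2 * M) with hb
  have hb0 : 0 < b := by positivity
  have hb1 : b < 1 := by
    rw [hb, div_lt_one (by positivity)]
    linarith
  set a : ℝ := b * ((1 + ρ) / 2) with ha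
  have ha0 : 0 < a := by positivity
  have hab : a < b := by
    rw [ha]
    nlinarith
  have h1 : b * Real.log M < a * Real.log (M + 1) := by
    have e1 : Real.log M = ρ * Real.log (M + 1) := by
      rw [hρ, div_mul_cancel₀ _ (hl.trans hl1).ne']
    rw [ha]
    calc b * Real.log M = b * Real.log (M + 1) * ρ := by
          conv_lhs => rw [e1]
          ring
      _ < b * Real.log (M + 1) * ((1 + ρ) / 2) := by
          have h2 : 0 < b * Real.log (M + 1) := mul_pos hb0 (hl.trans hl1)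
          nlinarith
      _ = _ := by ring
  have h2 : b * Real.log M < Real.log 2 + a * Real.log (3 / 2) := by
    have h3 : Real.log M ≤ M - 1 := Real.log_le_sub_one_of_pos (by linarith)
    have h4 : b * Real.log M ≤ 1 / 2 := by
      rw [hb, div_mul_eq_mul_div, one_mul, div_le_div_iff₀ (by positivity) (by norm_num)]
      linarith
    have h5 : (1 : ℝ) / 2 < Real.log 2 := by linarith [Real.log_two_gt_d9]
    have h6 : 0 ≤ a * Real.log (3 / 2) := mul_nonneg ha0.le (Real.log_nonneg (by norm_num))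
    linarith
  obtain ⟨k0, h0⟩ := window_asymp (M := M) (by omega) ha0 h1 h2
  refine ⟨a, b, ha0, hab, hb1, max k0 1, fun k hk P0 P1 hP0 h01 hP1 c hc d h => ?_⟩
  have hk1 : (1 : ℝ) ≤ k := by exact_mod_cast (le_max_right _ _).trans hk
  have h1k : P1 < k := by
    have h3 : (P1 : ℝ) < k := lt_of_le_of_lt hP1 (by nlinarith)
    exact_mod_cast h3
  have h3 := h0 k ((le_max_left _ _).trans hk) P0 P1 hP0 h01 hP1 h1k c (fun p hp => by
    refine lt_of_le_of_lt (hc p hp) ?_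
    have h4 : H < M.factorial := lt_of_lt_of_le (by omega : H < M) (Nat.self_le_factorial M)
    have h5 : M.factorial ≤ M.factorial ^ 2 := Nat.le_self_pow (by norm_num) _
    exact_mod_cast h4.trans_le h5) d h
  intro h4
  rw [h4, abs_zero] at h3
  have h5 : (0 : ℝ) < 1 / (2 * (M : ℝ) ^ P1) := by positivity
  linarith

end Pool.Agent.U553.DW
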